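import Pool.Agent.TS.A.Alg
import Pool.Agent.MD.E.Fin
import Pool.Agent.MD.F.Odd
import Pool.Agent.QD.F.Main

/-!
# TS/M-G1: Hasse-Weil over the fields of degree `n` (paper section 8)

PLAN.  If no `p ∈ V` is a prime outside `T`, `EvV V T K` is vacuous: `hE K` (`n ∣ n`, `n ≤ bC n`).  Otherwise `alg_ts`, `MER_of_rel` (H73/AL/Final), `W` = places of `K` over the primes `p ∈ V`, `p ∉ T`: finite, nonempty, away from `T`; `HWV D a W`: for `x` nonsquare at all `w ∈ W` and `L = K(√x)`: `evV_quad`, degree `2 n ≤ bC n`;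
`hw_of_mer` (MD/E/Fin) with `sqRel_of_frob` (see MD/F/Main).
-/

namespace Pool.Agent.TS

open NumberField IsDedekindDomain Pool.Agent.HWR Pool.Agent.QD Pool.Agent.H73.AL Pool.Agent.LD
  Pool.Agent.MD

private theorem g1_alg (inst : Algebra ℚ (AlgebraicClosure ℚ)) :
    IsAlgClosure ℚ (AlgebraicClosure ℚ) := by
  have h : inst = AlgebraicClosure.instAlgebra ℚ := Subsingleton.elim _ _
  subst h
  infer_instance

private theorem g1_emb (K : Type) [Field K] [NumberField K] :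
    ∃ _ : K →+* AlgebraicClosure ℚ, True := by
  have hcl : IsAlgClosure ℚ (AlgebraicClosure ℚ) := g1_alg inferInstance
  have hal : IsAlgClosed (AlgebraicClosure ℚ) := inferInstance
  let φ1 : K →ₐ[ℚ] AlgebraicClosure ℚ := IsAlgClosed.lift
  exact ⟨φ1.toRingHom, trivial⟩

private theorem g1_cop {K : Type} [Field K] [NumberField K] {v : HeightOneSpectrum (𝓞 K)}
    {p q : ℕ} (hp : p.Prime) (hq : q.Prime) (hne : p ≠ q) (h1 : ((p : ℕ) : 𝓞 K) ∈ v.asIdeal)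
    (h2 : ((q : ℕ) : 𝓞 K) ∈ v.asIdeal) : False := by
  have hc : IsCoprime (p : ℤ) (q : ℤ) := Nat.isCoprime_iff_coprime.2 ((Nat.coprime_primes hp hq).2 hne)
  obtain ⟨a, b, hab⟩ := hc
  apply v.isPrime.ne_top
  rw [Ideal.eq_top_iff_one]
  have h3 : (1 : 𝓞 K) = (a : 𝓞 K) * ((p : ℕ) : 𝓞 K) + (b : 𝓞 K) * ((q : ℕ) : 𝓞 K) := by
    have h4 := congrArg (fun z : ℤ => (z : 𝓞 K)) hab
    push_cast at h4
    exact h4.symm
  rw [h3]
  exact v.asIdeal.add_mem (v.asIdeal.mul_mem_left _ h1) (v.asIdeal.mul_mem_left _ h2)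

private theorem g1_le (n : ℕ) (hn : 0 < n) : 2 * n ≤ bC n := by
  have h1 : n ≤ bM n := by
    unfold bM
    have h2 : n ≤ n ^ 2 := by nlinarith
    exact h2.trans (Nat.self_le_factorial _)
  have h3 : 1 ≤ 2 ^ bM n := Nat.one_le_two_pow
  unfold bC
  nlinarith

theorem g1 {T : Finset ℕ} (hTp : ∀ p ∈ T, p.Prime) (hT : ∀ p : ℕ, p.Prime → p < 101 → p ∈ T)
    (D : LocData T) (a : ℕ → ℝ) (ha : ∀ q : ℕ, |a q| ≤ 2 * Real.sqrt q) (hfr : FrobRel T a)
    (V : Finset ℕ) (n : ℕ)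
    (hR : ∀ F : NF, InfinitePlace.nrComplexPlaces F.F = 0 → Module.finrank ℚ F.F = n →
      D.HW a F.F)
    (hE : ∀ F : NF, n ∣ Module.finrank ℚ F.F → Module.finrank ℚ F.F ≤ bC n → EvV V T F.F →
      D.HW a F.F) (K : NF) (hK : Module.finrank ℚ K.F = n) : D.HW a K.F := by
  classical
  have hn : 0 < n := by
    rw [← hK]
    exact Module.finrank_pos
  have hle := g1_le n hn
  by_cases hne : ∃ p ∈ V, p.Prime ∧ p ∉ T
  swap
  · refine hE K (by rw [hK]) (by omega) ?_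
    intro p hp hpp hpT
    exact absurd ⟨p, hp, hpp, hpT⟩ hne
  obtain ⟨p0, hp0, hpp0, hpT0⟩ := hne
  have h2T : 2 ∈ T := hT 2 Nat.prime_two (by norm_num)
  obtain ⟨F, A, B, hF0, hFn, hrel, hAB⟩ := alg_ts V hTp h2T K
  rw [hK] at hFn hAB
  have hmer : D.MER a K.F := by
    refine MER_of_rel D hTp hT ha K hrel (fun X hX => ?_) (fun X hX => ?_)
    · obtain ⟨h1, h2, h3⟩ := hAB X (List.mem_append_left _ hX)
      exact hE X h1 h2 h3
    · rcases List.mem_cons.1 hX with rfl | hX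
      · exact hR X hF0 hFn
      · obtain ⟨h1, h2, h3⟩ := hAB X (List.mem_append_right _ hX)
        exact hE X h1 h2 h3
  -- the places
  obtain ⟨V', hV'⟩ : ∃ V' : Finset ℕ, V' = V.filter fun p => p.Prime ∧ p ∉ T := ⟨_, rfl⟩
  have hV'p : ∀ p ∈ V', p.Prime := by
    intro p hp
    rw [hV', Finset.mem_filter] at hp
    exact hp.2.1
  have hfin := Pool.Agent.QD.In.not_away_finite K.F V' hV'p
  have hmem : ∀ w, w ∈ hfin.toFinset ↔ ∃ p ∈ V, p.Prime ∧ p ∉ T ∧ ((p : ℕ) : 𝓞 K.F) ∈ w.asIdeal := by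
    intro w
    rw [hfin.mem_toFinset]
    have e : (w ∈ {v : HeightOneSpectrum (𝓞 K.F) | ¬ Away K.F V' v}) ↔ ¬ Away K.F V' w := Iff.rfl
    rw [e]
    unfold Away
    push Not
    constructor
    · rintro ⟨p, hp, hpw⟩
      rw [hV', Finset.mem_filter] at hp
      exact ⟨p, hp.1, hp.2.1, hp.2.2, hpw⟩
    · rintro ⟨p, hp, h1, h2, hpw⟩
      exact ⟨p, by rw [hV', Finset.mem_filter]; exact ⟨hp, h1, h2⟩, hpw⟩
  have haway : ∀ w ∈ hfin.toFinset, Away K.F T w := by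
    intro w hw q hq hqw
    obtain ⟨p, hp, h1, h2, hpw⟩ := (hmem w).1 hw
    exact g1_cop h1 (hTp q hq) (fun h => h2 (h ▸ hq)) hpw hqw
  have hnem : hfin.toFinset.Nonempty := by
    have : Fact p0.Prime := ⟨hpp0⟩
    obtain ⟨φ, -⟩ := g1_emb K.F
    obtain ⟨w, hw⟩ := exists_isPl p0 φ
    exact ⟨w, (hmem w).2 ⟨p0, hp0, hpp0, hpT0, isPl_mem hw⟩⟩
  have hwv : HWV D a hfin.toFinset := by
    intro x hx L _ _ _ θ hd hθ
    have h1 : Module.finrank ℚ L = 2 * n := by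
      rw [← hK, ← Module.finrank_mul_finrank ℚ K.F L, hd, mul_comm]
    refine hE ⟨L⟩ ?_ ?_ ?_
    · change n ∣ Module.finrank ℚ L
      rw [h1]
      exact Dvd.intro_left 2 rfl
    · change Module.finrank ℚ L ≤ bC n
      rw [h1]
      exact hle
    · refine evV_quad (K := K.F) L x θ hθ ?_
      intro p hp hpp hpT v hv
      exact hx v ((hmem v).2 ⟨p, hp, hpp, hpT, hv⟩)
  exact hw_of_mer K.F T hTp hT D a ha (sqRel_of_frob K.F T a hfr) hfin.toFinset haway hnem hwv hmer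

end Pool.Agent.TS
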