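import Pool.Agent.TS.M.G1
import Pool.Agent.QD.F.Main

/-!
# TS/M-G2: Hasse-Weil over all number fields (paper section 8)

PLAN.  For `K'` with `d = 2 ^ m * n ∣ finrank K' = N`: `V = (Finset.range (M + 1))` with `M = (Finset.range (bC N + 1)).sup φ`; `g1` with `n := N`: totally real fields of degree `N`: `hR`; `F` with `N ∣ finrank F ≤ bC N`, `EvV V T F`: `p ≤ φ (finrank F) ≤ M` gives `p ∈ V`: `hE`.  So HW for all `K'` with `d ∣ finrank K'`; then
`Pool.Agent.QD.main_theorem`-like statement in terms of `D`, `a` (see QD/F/Main: find the version with `LocData`, `FrobRel` and `M ∣ degree`; the theorem used in `main_theorem`).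
-/

namespace Pool.Agent.TS

open NumberField IsDedekindDomain Pool.Agent.HWR Pool.Agent.QD Pool.Agent.H73.AL Pool.Agent.LD

theorem g2 (A B : ℤ) (T : Finset ℕ) (hTp : ∀ p ∈ T, p.Prime)
    (hT : ∀ p : ℕ, p.Prime → p < 101 → p ∈ T)
    (hbad : ∀ p : ℕ, p.Prime → (p : ℤ) ∣ 4 * A ^ 3 + 27 * B ^ 2 → p ∈ T) (D : LocData T)
    (hQ : D.HW (aT A B T) ℚ) (φ : ℕ → ℕ) (m n : ℕ) (hn : n ≠ 0)
    (hR : ∀ F : NF, InfinitePlace.nrComplexPlaces F.F = 0 → 2 ^ m * n ∣ Module.finrank ℚ F.F →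
      D.HW (aT A B T) F.F)
    (hE : ∀ F : NF, 2 ^ m * n ∣ Module.finrank ℚ F.F → (∀ p : ℕ, p.Prime → p ∉ T →
      p ≤ φ (Module.finrank ℚ F.F) → ∀ w : HeightOneSpectrum (𝓞 F.F),
        ((p : ℕ) : 𝓞 F.F) ∈ w.asIdeal → 2 ∣ locDeg ℚ w) → D.HW (aT A B T) F.F)
    (K : NF) (hK : n ∣ Module.finrank ℚ K.F) : D.HW (aT A B T) K.F := by
  refine main_theorem A B T hTp hT hbad D hQ m n hn ?_ K.F hK
  intro F _ _ hF
  have key : ∀ X : NF, 2 ^ m * n ∣ Module.finrank ℚ X.F → D.HW (aT A B T) X.F := by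
    intro X hX
    obtain ⟨M, hM⟩ : ∃ M, M = (Finset.range (bC (Module.finrank ℚ X.F) + 1)).sup φ := ⟨_, rfl⟩
    refine g1 hTp hT D (aT A B T) (aT_bd A B T hT hbad) (aT_frob A B T) (Finset.range (M + 1))
      (Module.finrank ℚ X.F) (fun F hF0 hFn => hR F hF0 (by rw [hFn]; exact hX)) ?_ X rfl
    intro F hF1 hF2 hF3
    refine hE F (hX.trans hF1) ?_
    intro p hp hpT hpφ w hw
    refine hF3 p ?_ hp hpT w hw
    rw [Finset.mem_range, Nat.lt_succ_iff]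
    refine hpφ.trans ?_
    rw [hM]
    exact Finset.le_sup (f := φ) (Finset.mem_range.2 (Nat.lt_succ_of_le hF2))
  exact key ⟨F⟩ hF

end Pool.Agent.TS
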