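import Pool.Agent.TS.M.G2
import Pool.Agent.TS.X.Exc

/-!
# TS/M-G3: finitely many exceptions
-/

namespace Pool.Agent.TS

open NumberField IsDedekindDomain Pool.Agent.HWR Pool.Agent.QD Pool.Agent.H73.AL Pool.Agent.LD

theorem g1x {T : Finset ℕ} (hTp : ∀ p ∈ T, p.Prime) (hT : ∀ p : ℕ, p.Prime → p < 101 → p ∈ T)
    (D : LocData T) (a : ℕ → ℝ) (ha : ∀ q : ℕ, |a q| ≤ 2 * Real.sqrt q) (hfr : FrobRel T a)
    (V : Finset ℕ) (L : List NF) (n : ℕ)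
    (hR : ∀ F : NF, InfinitePlace.nrComplexPlaces F.F = 0 → Module.finrank ℚ F.F = n →
      D.HW a F.F)
    (hE : ∀ F : NF, n ∣ Module.finrank ℚ F.F → Module.finrank ℚ F.F ≤ bC n → EvV V T F.F →
      (∀ X ∈ L, ¬ Nonempty (X.F ≃+* F.F)) → D.HW a F.F) (K : NF)
    (hK : Module.finrank ℚ K.F = n) : D.HW a K.F := by
  obtain ⟨V', h1, h2⟩ := exists_V V T L
  refine g1 hTp hT D a ha hfr V' n hR (fun F hF1 hF2 hF3 => ?_) K hK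
  exact hE F hF1 hF2 (fun p hp => hF3 p (h1 hp)) (h2 F hF3)

theorem g2x (A B : ℤ) (T : Finset ℕ) (hTp : ∀ p ∈ T, p.Prime)
    (hT : ∀ p : ℕ, p.Prime → p < 101 → p ∈ T)
    (hbad : ∀ p : ℕ, p.Prime → (p : ℤ) ∣ 4 * A ^ 3 + 27 * B ^ 2 → p ∈ T) (D : LocData T)
    (hQ : D.HW (aT A B T) ℚ) (φ : ℕ → ℕ) (L : List NF) (m n : ℕ) (hn : n ≠ 0)
    (hR : ∀ F : NF, InfinitePlace.nrComplexPlaces F.F = 0 → 2 ^ m * n ∣ Module.finrank ℚ F.F →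
      D.HW (aT A B T) F.F)
    (hE : ∀ F : NF, 2 ^ m * n ∣ Module.finrank ℚ F.F → (∀ p : ℕ, p.Prime → p ∉ T →
      p ≤ φ (Module.finrank ℚ F.F) → ∀ w : HeightOneSpectrum (𝓞 F.F),
        ((p : ℕ) : 𝓞 F.F) ∈ w.asIdeal → 2 ∣ locDeg ℚ w) →
      (∀ X ∈ L, ¬ Nonempty (X.F ≃+* F.F)) → D.HW (aT A B T) F.F)
    (K : NF) (hK : n ∣ Module.finrank ℚ K.F) : D.HW (aT A B T) K.F := by
  obtain ⟨V', -, h2⟩ := exists_V ∅ T L
  refine g2 A B T hTp hT hbad D hQ (fun d => max (φ d) (V'.sup id)) m n hn hR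
    (fun F hF1 hF2 => ?_) K hK
  refine hE F hF1 (fun p hp hpT hpφ => hF2 p hp hpT (hpφ.trans (le_max_left _ _))) (h2 F ?_)
  intro p hp hpp hpT
  refine hF2 p hpp hpT (le_trans ?_ (le_max_right _ _))
  exact Finset.le_sup (f := id) hp

end Pool.Agent.TS
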